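import Pool.Agent.Helper89K9.MC.Stm

/-! Leaf AVG of the project MC (MP_0f1f76_lc): the average over the stream. -/

set_option autoImplicit false

namespace Pool.Agent.Helper42K9.MC

open Pool.Agent.Helper89K9.MC
open Finset H568R2 DomAC0
open Pool.Agent.TH163.AC2 (Alg lenE rightE mavg avg_eq mavg_sum_mul sum_before coord)
open Pool.Agent.H699R2.OMV (Prog Vec Mat IsProb before avg)

open Classical in
theorem avg_ : S_AVG := by
  intro n w Ω A _ alg μ hμ γ hR Q hQ P β hP0 hall
  have hcV : (0 : ℝ) < (Fintype.card (Fin n → Vec n) : ℝ) := by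
    exact_mod_cast Fintype.card_pos
  -- the time of one vector
  let T : Fin n → ℝ := fun q => avg (fun M vs =>
      ∑ ω, μ ω * ((alg.probes ω M vs q).length : ℝ))
  have hT : ∀ q, T q = (∑ ω, μ ω * ∑ vs : Fin n → Vec n, lenE alg ω (before vs q) (vs q)) /
      (Fintype.card (Fin n → Vec n) : ℝ) := by
    intro q
    show avg _ = _
    rw [avg_eq]
    congr 1
    simp only [mavg_sum_mul]
    rw [Finset.sum_comm]
    apply Finset.sum_congr rfl
    intro ω _
    rw [Finset.mul_sum]
    rfl
  have hE : ∀ q : Fin n, γ ≤ (∑ ω, μ ω * ∑ vs : Fin n → Vec n,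
      rightE alg ω (before vs q) (vs q)) / (Fintype.card (Fin n → Vec n) : ℝ) := by
    intro q
    have := hR q
    rw [avg_eq] at this
    simp only [mavg_sum_mul] at this
    rw [Finset.sum_comm] at this
    refine le_trans this (le_of_eq ?_)
    congr 1
    apply Finset.sum_congr rfl
    intro ω _
    rw [Finset.mul_sum]
    rfl
  have hTnn : ∀ q, 0 ≤ T q := by
    intro q
    rw [hT]
    apply div_nonneg _ hcV.le
    apply Finset.sum_nonneg
    intro ω _
    apply mul_nonneg (hμ.nonneg ω)
    apply Finset.sum_nonneg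
    intro vs _
    unfold lenE mavg
    positivity
  have hone : ∀ q : Fin n, q.val < Q → P * (γ - β) ≤ T q := by
    intro q hq
    have hG : ∀ ω, (Fintype.card (Fin n → Vec n) : ℝ) * (-(P * β)) ≤
        ∑ vs : Fin n → Vec n, (lenE alg ω (before vs q) (vs q) -
          P * rightE alg ω (before vs q) (vs q)) := by
      intro ω
      apply sum_before (fun h v => lenE alg ω h v - P * rightE alg ω h v)
      intro h hh
      exact hall ω h (by omega)
    have hsum : (Fintype.card (Fin n → Vec n) : ℝ) * (-(P * β)) ≤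
        (∑ ω, μ ω * ∑ vs : Fin n → Vec n, lenE alg ω (before vs q) (vs q)) -
        P * ∑ ω, μ ω * ∑ vs : Fin n → Vec n, rightE alg ω (before vs q) (vs q) := by
      have h4 := Finset.sum_le_sum (fun ω (_ : ω ∈ (univ : Finset Ω)) =>
        mul_le_mul_of_nonneg_left (hG ω) (hμ.nonneg ω))
      rw [← Finset.sum_mul, hμ.sum_one, one_mul] at h4
      refine h4.trans (le_of_eq ?_)
      rw [Finset.mul_sum, ← Finset.sum_sub_distrib]
      apply Finset.sum_congr rfl
      intro ω _
      rw [Finset.sum_sub_distrib, ← Finset.mul_sum]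
      ring
    have h5 : -(P * β) ≤ T q - P * ((∑ ω, μ ω *
        ∑ vs : Fin n → Vec n, rightE alg ω (before vs q) (vs q)) /
          (Fintype.card (Fin n → Vec n) : ℝ)) := by
      rw [hT, ← mul_div_assoc, ← sub_div, le_div_iff₀ hcV]
      linarith
    have h7 := mul_le_mul_of_nonneg_left (hE q) hP0
    linarith
  have htot : avg (fun M vs => ∑ ω, μ ω * ∑ q, ((alg.probes ω M vs q).length : ℝ)) =
      ∑ q, T q := by
    show _ = ∑ q, avg _
    unfold avg
    rw [← Finset.sum_div]
    congr 1
    symm
    rw [Finset.sum_comm]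
    apply Finset.sum_congr rfl
    intro M _
    rw [Finset.sum_comm]
    apply Finset.sum_congr rfl
    intro vs _
    rw [Finset.sum_comm]
    apply Finset.sum_congr rfl
    intro ω _
    rw [Finset.mul_sum]
  rw [htot]
  have hsub : ∑ q ∈ univ.filter (fun q : Fin n => q.val < Q), T q ≤ ∑ q, T q := by
    apply Finset.sum_le_sum_of_subset_of_nonneg (Finset.filter_subset _ _)
    intro q _ _
    exact hTnn q
  refine le_trans ?_ hsub
  have hcard : (univ.filter (fun q : Fin n => q.val < Q)).card = Q := by
    rw [Fin.card_filter_val_lt, min_eq_right hQ]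
  have := Finset.card_nsmul_le_sum (univ.filter (fun q : Fin n => q.val < Q))
    (fun q => T q) (P * (γ - β)) (by
      intro q hq
      exact hone q (Finset.mem_filter.1 hq).2)
  rw [hcard, nsmul_eq_mul] at this
  exact this

end Pool.Agent.Helper42K9.MC
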