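import Pool.Agent.Helper89K9.MC.Stm

/-! Leaf NUM of the project MC (MP_0f1f76_lc): the choice of the parameters. -/

set_option autoImplicit false



namespace Pool.Agent.Helper42K9.MC

open Pool.Agent.Helper89K9.MC

lemma pow_le_inv {a b c : ℕ} (h : a + c ≤ b) : (2 : ℝ) ^ a * (1 / 2 ^ b) ≤ 1 / 2 ^ c := by
  rw [mul_one_div, div_le_div_iff₀ (by positivity) (by positivity), one_mul, ← pow_add]
  exact pow_le_pow_right₀ (by norm_num) h

theorem num : S_NUM := by
  intro n p D s e l τ hp hn he hl hτ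
  have hp0 : (0 : ℝ) < p := by exact_mod_cast (show 0 < p by omega)
  have hL1 : 1 ≤ lam p D := by
    unfold lam
    apply one_le_pow₀
    have h1 : (1 : ℝ) ≤ p := by exact_mod_cast (show 1 ≤ p by omega)
    have h2 : (1 : ℝ) ≤ 2 ^ (p - 1) := one_le_pow₀ (by norm_num)
    nlinarith
  set L := lam p D with hL
  have hn256 : 256 ≤ n := by
    have h1 : (256 : ℝ) ≤ n := by linarith
    exact_mod_cast h1
  have hnR : (256 : ℝ) ≤ n := by exact_mod_cast hn256
  have t1 : (1 : ℝ) / 2 ^ (n / 4) ≤ 1 / 2 ^ (n / 16 + 3) := by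
    have := pow_le_inv (a := 0) (b := n / 4) (c := n / 16 + 3) (by omega)
    simpa using this
  have t2 : (2 : ℝ) ^ e * (1 / 2 ^ (n / 8)) ≤ 1 / 2 ^ (n / 16 + 3) := pow_le_inv (by omega)
  have t3 : (2 : ℝ) ^ e * (2 ^ (n * l) * ((p : ℝ) ^ s) ^ τ * (1 - 1 / L) ^ (n * n / 64)) ≤ 1 / 2 ^ (n / 16 + 3) := by
    have hlog2 := Real.log_two_lt_d9
    have hlog2' := Real.log_two_gt_d9
    have hL0 : 0 < L := by linarith
    have h1 : 0 ≤ 1 - 1 / L := by
      rw [sub_nonneg, div_le_one hL0]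
      exact hL1
    have h2 : 1 - 1 / L ≤ Real.exp (-(1 / L)) := by
      have := Real.add_one_le_exp (-(1 / L))
      linarith
    have h3 : (1 - 1 / L) ^ (n * n / 64) ≤ Real.exp (-(((n * n / 64 : ℕ) : ℝ) / L)) := by
      calc (1 - 1 / L) ^ (n * n / 64) ≤ Real.exp (-(1 / L)) ^ (n * n / 64) := pow_le_pow_left₀ h1 h2 _
        _ = Real.exp (((n * n / 64 : ℕ) : ℝ) * (-(1 / L))) := by rw [Real.exp_nat_mul]
        _ = _ := by congr 1; ring
    have h2e : ∀ k : ℕ, (2 : ℝ) ^ k = Real.exp (k * Real.log 2) := by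
      intro k
      rw [Real.exp_nat_mul, Real.exp_log (by norm_num)]
    have hpe : ((p : ℝ) ^ s) ^ τ = Real.exp ((s * Real.logb 2 p * τ) * Real.log 2) := by
      rw [← pow_mul]
      have h4 : Real.logb 2 p * Real.log 2 = Real.log p := by
        unfold Real.logb
        have : Real.log 2 ≠ 0 := by positivity
        field_simp
      have h5 : (s * Real.logb 2 p * τ) * Real.log 2 = ((s * τ : ℕ) : ℝ) * Real.log p := by
        push_cast
        rw [← h4]
        ring
      rw [h5, Real.exp_nat_mul, Real.exp_log hp0]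
    have h6 : (2 : ℝ) ^ e * (2 ^ (n * l) * ((p : ℝ) ^ s) ^ τ * (1 - 1 / L) ^ (n * n / 64)) ≤
        (2 : ℝ) ^ e * (2 ^ (n * l) * ((p : ℝ) ^ s) ^ τ * Real.exp (-(((n * n / 64 : ℕ) : ℝ) / L))) := by
      apply mul_le_mul_of_nonneg_left _ (by positivity)
      exact mul_le_mul_of_nonneg_left h3 (by positivity)
    refine h6.trans ?_
    rw [one_div, h2e e, h2e (n * l), h2e (n / 16 + 3), hpe, ← Real.exp_neg, ← Real.exp_add, ← Real.exp_add, ← Real.exp_add,
      Real.exp_le_exp]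
    -- the estimate of the exponent
    have hm : ((n : ℝ) ^ 2 - 64) / 64 ≤ ((n * n / 64 : ℕ) : ℝ) := by
      have h7 : n * n < 64 * (n * n / 64) + 64 := by omega
      have h8 : ((n * n : ℕ) : ℝ) < ((64 * (n * n / 64) + 64 : ℕ) : ℝ) := by exact_mod_cast h7
      push_cast at h8
      rw [div_le_iff₀ (by norm_num)]
      have h9 : (((n * n / 64 : ℕ) : ℕ) : ℝ) * 64 = 64 * (((n * n / 64 : ℕ)) : ℝ) := by ring
      nlinarith
    set X := (n : ℝ) ^ 2 / (128 * L) with hX
    have hX2 : 2 * (n : ℝ) ≤ X := by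
      rw [hX, le_div_iff₀ (by positivity)]
      nlinarith
    have a1 : (e : ℝ) ≤ n / 32 := by
      have : ((32 * e : ℕ) : ℝ) ≤ n := by exact_mod_cast he
      push_cast at this
      linarith
    have a2 : ((n * l : ℕ) : ℝ) ≤ X / 2 := by
      have h7 : (n : ℝ) * (256 * L * l) ≤ n * n := mul_le_mul_of_nonneg_left hl (by positivity)
      rw [hX]
      push_cast
      rw [div_div, le_div_iff₀ (by positivity)]
      nlinarith
    have a3 : s * Real.logb 2 p * τ ≤ X / 2 := by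
      rw [hX, div_div, le_div_iff₀ (by positivity)]
      nlinarith
    have a4 : 2 * X - 1 ≤ ((n * n / 64 : ℕ) : ℝ) / L := by
      have h7 : 2 * X - 1 ≤ (((n : ℝ) ^ 2 - 64) / 64) / L := by
        have h8 : 2 * X = ((n : ℝ) ^ 2 / 64) / L := by
          rw [hX]
          field_simp
          ring
        rw [h8]
        have h9 : (((n : ℝ) ^ 2 - 64) / 64) / L = ((n : ℝ) ^ 2 / 64) / L - 1 / L := by
          field_simp
        rw [h9]
        have : 1 / L ≤ 1 := by rw [div_le_one hL0]; exact hL1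
        linarith
      exact h7.trans (div_le_div_of_nonneg_right hm hL0.le)
    have a5 : ((n / 16 + 3 : ℕ) : ℝ) ≤ n / 16 + 3 := by
      push_cast
      have : ((n / 16 : ℕ) : ℝ) ≤ n / 16 := Nat.cast_div_le
      linarith
    have hlp : 0 < Real.log 2 := by positivity
    have b1 : (e : ℝ) * Real.log 2 ≤ n / 32 * 0.6932 := by
      calc (e : ℝ) * Real.log 2 ≤ n / 32 * Real.log 2 := mul_le_mul_of_nonneg_right a1 hlp.le
        _ ≤ n / 32 * 0.6932 := mul_le_mul_of_nonneg_left (by linarith) (by positivity)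
    have hX0 : 0 ≤ X := by linarith
    have b2 : ((n * l : ℕ) : ℝ) * Real.log 2 ≤ X / 2 * 0.6932 := by
      calc ((n * l : ℕ) : ℝ) * Real.log 2 ≤ X / 2 * Real.log 2 := mul_le_mul_of_nonneg_right a2 hlp.le
        _ ≤ X / 2 * 0.6932 := mul_le_mul_of_nonneg_left (by linarith) (by positivity)
    have b3 : (s * Real.logb 2 p * τ) * Real.log 2 ≤ X / 2 * 0.6932 := by
      calc (s * Real.logb 2 p * τ) * Real.log 2 ≤ X / 2 * Real.log 2 := mul_le_mul_of_nonneg_right a3 hlp.le
        _ ≤ X / 2 * 0.6932 := mul_le_mul_of_nonneg_left (by linarith) (by positivity)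
    have b4 : ((n / 16 + 3 : ℕ) : ℝ) * Real.log 2 ≤ (n / 16 + 3) * 0.6932 := by
      calc ((n / 16 + 3 : ℕ) : ℝ) * Real.log 2 ≤ (n / 16 + 3) * Real.log 2 := mul_le_mul_of_nonneg_right a5 hlp.le
        _ ≤ (n / 16 + 3) * 0.6932 := mul_le_mul_of_nonneg_left (by linarith) (by positivity)
    linarith
  have t4 : (1 / 2 ^ (n / 16) : ℝ) / 2 = 4 * (1 / 2 ^ (n / 16 + 3)) := by
    rw [pow_add]
    field_simp
    norm_num
  rw [t4, mul_add]
  have : (0 : ℝ) ≤ 1 / 2 ^ (n / 16 + 3) := by positivity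
  linarith

end Pool.Agent.Helper42K9.MC
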