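import Pool.Agent.Helper89K9.MC.Stm

/-! Leaf VIRT of the project MC (MP_0f1f76_lc): the memory for each value of the side information. -/

set_option autoImplicit false

namespace Pool.Agent.Helper42K9.MC

open Pool.Agent.Helper89K9.MC
open Finset
open H746R3.Inv (LD bK mono mono_mem)
open Pool.Agent.TH163.AC2 (Alg coord toM gm lenE rightE mavg coord_toM)
open Pool.Agent.H699R2.OMV (Prog Vec Mat IsProb before avg)

/-- a polynomial of degree at most `D` is a function of degree at most `D` on the cube -/
lemma poly_LD {K : Type} [Field K] {V : Type} [DecidableEq V] (P : MvPolynomial V K) (D : ℕ)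
    (hP : P.totalDegree ≤ D) :
    (fun x : V → Bool => MvPolynomial.eval (fun c => if x c then (1 : K) else 0) P) ∈ LD K V D := by
  have h1 : (fun x : V → Bool => MvPolynomial.eval (fun c => if x c then (1 : K) else 0) P) =
      ∑ s ∈ P.support, P.coeff s • (mono s.support : (V → Bool) → K) := by
    funext x
    rw [MvPolynomial.eval_eq, Finset.sum_apply]
    apply Finset.sum_congr rfl
    intro s _
    rw [Pi.smul_apply, smul_eq_mul]
    congr 1
    unfold mono
    apply Finset.prod_congr rfl
    intro i hi
    unfold bK
    by_cases hx : x i = true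
    · rw [if_pos hx, one_pow]
    · rw [if_neg hx, zero_pow (Finsupp.mem_support_iff.1 hi)]
  rw [h1]
  refine Submodule.sum_mem _ fun s hs => Submodule.smul_mem _ _ (mono_mem ?_)
  have h2 : (s.sum fun _ e => e) ≤ P.totalDegree := MvPolynomial.le_totalDegree hs
  have h3 : s.support.card ≤ s.sum fun _ e => e := by
    unfold Finsupp.sum
    rw [Finset.card_eq_sum_ones]
    apply Finset.sum_le_sum
    intro i hi
    exact Nat.one_le_iff_ne_zero.2 (Finsupp.mem_support_iff.1 hi)
  omega

open Classical in
theorem virt : S_VIRT := by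
  intro p _ n w A G B D s e m f hall
  choose P hPd hPm using hall
  set Pf : A → (Fin e → Bool) → Fin s → (Fin n × Fin n → Bool) → ZMod p := fun a y j x =>
    MvPolynomial.eval (fun c => if x c then (1 : ZMod p) else 0) (P a y j) with hPf
  set g : (Fin e → Bool) → A → (Fin s → ZMod p) → Fin w → Bool := fun y a v =>
    if h : ∃ M' : Mat n, f M' = y ∧ ∀ j, Pf a y j (coord G B M') = v j then m h.choose a else fun _ => false with hg
  refine ⟨fun y M a => g y a (fun j => Pf a y j (coord G B M)), ?_, ?_⟩
  · intro M
    funext a
    have hex : ∃ M' : Mat n, f M' = f M ∧ ∀ j, Pf a (f M) j (coord G B M') = Pf a (f M) j (coord G B M) :=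
      ⟨M, rfl, fun _ => rfl⟩
    show g (f M) a (fun j => Pf a (f M) j (coord G B M)) = m M a
    rw [hg]
    simp only
    rw [dif_pos hex]
    obtain ⟨h1, h2⟩ := hex.choose_spec
    exact hPm a (f M) hex.choose M h1 rfl h2
  · intro y a
    refine ⟨Pf a y, fun j => poly_LD _ D (hPd a y j), fun x x' hxx => ?_⟩
    show g y a (fun j => Pf a y j (coord G B (toM G B x))) = g y a (fun j => Pf a y j (coord G B (toM G B x')))
    congr 1
    funext j
    rw [coord_toM, coord_toM]
    exact hxx j

end Pool.Agent.Helper42K9.MC
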